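import Pool.Agent.TH716.TW.Defs
import Pool.Agent.H484R2.Zeta

/-! TW19: the Euler product inequality. -/

set_option autoImplicit false

namespace Pool.Agent.TH898.Euler

open NumberField IsDedekindDomain Filter Topology

variable (K : Type) [Field K] [NumberField K]

/-- nonzero ideals -/
abbrev NZ := {I : Ideal (𝓞 K) // I ≠ ⊥}

abbrev Pr := HeightOneSpectrum (𝓞 K)

variable {K}

lemma summable_norm {s : ℝ} (hs : 1 < s) :
    Summable (fun I : NZ K => (Ideal.absNorm I.1 : ℝ) ^ (-s)) := by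
  have h := (Pool.Agent.H484R2.hasSum_ideals K (s := (s : ℂ)) (by simpa using hs)).summable
  have h2 := Complex.reCLM.summable h
  refine h2.congr fun I => ?_
  have h3 : (0 : ℝ) ≤ (Ideal.absNorm I.1 : ℝ) := Nat.cast_nonneg _
  have h4 : ((Ideal.absNorm I.1 : ℂ)) ^ (-(s : ℂ)) = (((Ideal.absNorm I.1 : ℝ) ^ (-s) : ℝ) : ℂ) := by
    rw [Complex.ofReal_cpow h3]
    push_cast
    rfl
  rw [h4]
  simp

/-- a prime as a nonzero ideal -/
def toNZ (v : Pr K) : NZ K := ⟨v.asIdeal, v.ne_bot⟩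

omit [NumberField K] in
lemma toNZ_inj : Function.Injective (toNZ (K := K)) := by
  intro v w h
  exact HeightOneSpectrum.ext (congrArg Subtype.val h)

lemma summable_prime {s : ℝ} (hs : 1 < s) :
    Summable (fun v : Pr K => (Ideal.absNorm v.asIdeal : ℝ) ^ (-s)) := by
  have h := (summable_norm (K := K) hs).comp_injective (i := toNZ (K := K)) toNZ_inj
  exact h

lemma norm_one_sub_le (z : ℂ) : ‖1 - z‖ ≤ Real.exp (-z.re + ‖z‖ ^ 2 / 2) := by
  have h1 : ‖1 - z‖ ^ 2 = 1 + (-2 * z.re + ‖z‖ ^ 2) := by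
    rw [← Complex.normSq_eq_norm_sq, ← Complex.normSq_eq_norm_sq, Complex.normSq_apply,
      Complex.normSq_apply]
    simp only [Complex.sub_re, Complex.sub_im, Complex.one_re, Complex.one_im]
    ring
  have h2 : ‖1 - z‖ ^ 2 ≤ (Real.exp (-z.re + ‖z‖ ^ 2 / 2)) ^ 2 := by
    rw [h1, ← Real.exp_nat_mul]
    have h3 := Real.add_one_le_exp (-2 * z.re + ‖z‖ ^ 2)
    have h4 : ((2 : ℕ) : ℝ) * (-z.re + ‖z‖ ^ 2 / 2) = -2 * z.re + ‖z‖ ^ 2 := by
      push_cast
      ring
    rw [h4]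
    linarith
  exact (pow_le_pow_iff_left₀ (norm_nonneg _) (Real.exp_pos _).le two_ne_zero).1 h2

section

variable (f : Ideal (𝓞 K) → ℂ) (s : ℝ)

/-- the terms -/
noncomputable def G (I : Ideal (𝓞 K)) : ℂ := f I * ((Ideal.absNorm I : ℝ) ^ (-s) : ℝ)

open Classical in
/-- the terms prime to `S` -/
noncomputable def T (S : Finset (Pr K)) (I : NZ K) : ℂ :=
  if ∀ v ∈ S, ¬ v.asIdeal ∣ I.1 then G f s I.1 else 0

variable {f} {s}

lemma G_mul (hf : ∀ I J, f (I * J) = f I * f J) (I J : Ideal (𝓞 K)) :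
    G f s (I * J) = G f s I * G f s J := by
  unfold G
  rw [hf, map_mul, Nat.cast_mul, Real.mul_rpow (Nat.cast_nonneg _) (Nat.cast_nonneg _)]
  push_cast
  ring

lemma G_top (hf : f ⊤ = 1) : G f s ⊤ = 1 := by
  unfold G
  rw [hf]
  simp

lemma G_norm (hf : ∀ I, ‖f I‖ ≤ 1) (I : Ideal (𝓞 K)) :
    ‖G f s I‖ ≤ (Ideal.absNorm I : ℝ) ^ (-s) := by
  unfold G
  have h0 : (0 : ℝ) ≤ (Ideal.absNorm I : ℝ) ^ (-s) := Real.rpow_nonneg (Nat.cast_nonneg _) _
  rw [norm_mul, Complex.norm_real, Real.norm_of_nonneg h0]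
  exact mul_le_of_le_one_left h0 (hf I)

lemma T_norm (hf : ∀ I, ‖f I‖ ≤ 1) (S : Finset (Pr K)) (I : NZ K) :
    ‖T f s S I‖ ≤ (Ideal.absNorm I.1 : ℝ) ^ (-s) := by
  unfold T
  split_ifs
  · exact G_norm hf _
  · rw [norm_zero]
    exact Real.rpow_nonneg (Nat.cast_nonneg _) _

lemma T_summable (hf : ∀ I, ‖f I‖ ≤ 1) (hs : 1 < s) (S : Finset (Pr K)) :
    Summable (T f s S) :=
  Summable.of_norm_bounded (summable_norm (K := K) hs) (T_norm hf S)

/-- multiplication by a prime -/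
def mulP (w : Pr K) (J : NZ K) : NZ K := ⟨w.asIdeal * J.1, mul_ne_zero w.ne_bot J.2⟩

lemma mulP_inj (w : Pr K) : Function.Injective (mulP w) := by
  intro I J h
  have h1 : w.asIdeal * I.1 = w.asIdeal * J.1 := congrArg Subtype.val h
  exact Subtype.ext (mul_left_cancel₀ (by simpa using w.ne_bot) h1)

lemma dvd_iff_ne {v w : Pr K} (h : v ≠ w) (J : Ideal (𝓞 K)) :
    v.asIdeal ∣ w.asIdeal * J ↔ v.asIdeal ∣ J := by
  constructor
  · intro h1
    rcases (v.prime.dvd_mul).1 h1 with h2 | h2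
    · exfalso
      apply h
      have h3 : w.asIdeal ≤ v.asIdeal := Ideal.le_of_dvd h2
      exact HeightOneSpectrum.ext ((w.isMaximal.eq_of_le v.isPrime.ne_top h3).symm)
    · exact h2
  · intro h1
    exact Dvd.dvd.mul_left h1 _

lemma step (hm : ∀ I J, f (I * J) = f I * f J) (hf : ∀ I, ‖f I‖ ≤ 1) (hs : 1 < s)
    (S : Finset (Pr K)) (w : Pr K) (hw : w ∉ S) [DecidableEq (Pr K)] :
    ∑' I, T f s (insert w S) I = (1 - G f s w.asIdeal) * ∑' I, T f s S I := by
  classical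
  set h : NZ K → ℂ := fun I => if w.asIdeal ∣ I.1 then T f s S I else 0 with hh
  have h1 : ∀ I, T f s S I = T f s (insert w S) I + h I := by
    intro I
    simp only [hh]
    unfold T
    by_cases hd : w.asIdeal ∣ I.1
    · rw [if_pos hd]
      have : ¬ (∀ v ∈ insert w S, ¬ v.asIdeal ∣ I.1) := by
        intro h2
        exact h2 w (Finset.mem_insert_self _ _) hd
      rw [if_neg this, zero_add]
    · rw [if_neg hd, add_zero]
      congr 1
      apply propext
      constructor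
      · intro h2 v hv
        rcases Finset.mem_insert.1 hv with rfl | h3
        · exact hd
        · exact h2 v h3
      · intro h2 v hv
        exact h2 v (Finset.mem_insert_of_mem hv)
  have hsum : Summable h := by
    refine Summable.of_norm_bounded (summable_norm (K := K) hs) fun I => ?_
    simp only [hh]
    split_ifs
    · exact T_norm hf S I
    · rw [norm_zero]
      exact Real.rpow_nonneg (Nat.cast_nonneg _) _
  have h2 : ∑' I, h I = G f s w.asIdeal * ∑' I, T f s S I := by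
    have h3 : ∑' J, h (mulP w J) = ∑' I, h I := by
      refine (mulP_inj w).tsum_eq ?_
      intro I hI
      rw [Function.mem_support] at hI
      simp only [hh] at hI
      have hd : w.asIdeal ∣ I.1 := by
        by_contra h0
        exact hI (if_neg h0)
      obtain ⟨J, hJ⟩ := hd
      have hJ0 : J ≠ ⊥ := by
        rintro rfl
        exact I.2 (by rw [hJ]; simp)
      exact ⟨⟨J, hJ0⟩, Subtype.ext hJ.symm⟩
    rw [← h3, ← tsum_mul_left]
    refine tsum_congr fun J => ?_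
    simp only [hh, mulP]
    rw [if_pos (Dvd.intro _ rfl)]
    unfold T
    have h4 : (∀ v ∈ S, ¬ v.asIdeal ∣ w.asIdeal * J.1) ↔ (∀ v ∈ S, ¬ v.asIdeal ∣ J.1) := by
      refine forall₂_congr fun v hv => ?_
      have hvw : v ≠ w := by
        rintro rfl
        exact hw hv
      rw [dvd_iff_ne hvw]
    by_cases h5 : ∀ v ∈ S, ¬ v.asIdeal ∣ J.1
    · rw [if_pos h5, if_pos (h4.2 h5), G_mul hm]
    · rw [if_neg h5, if_neg (fun h6 => h5 (h4.1 h6)), mul_zero]
  have h6 : ∑' I, T f s S I = ∑' I, T f s (insert w S) I + ∑' I, h I := by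
    rw [← (T_summable hf hs _).tsum_add hsum]
    exact tsum_congr h1
  rw [h2] at h6
  linear_combination (-1 : ℂ) * h6

lemma prod_eq (hm : ∀ I J, f (I * J) = f I * f J) (hf : ∀ I, ‖f I‖ ≤ 1) (hs : 1 < s)
    (S : Finset (Pr K)) :
    ∑' I, T f s S I = (∏ v ∈ S, (1 - G f s v.asIdeal)) * ∑' I : NZ K, G f s I.1 := by
  classical
  induction S using Finset.induction_on with
  | empty =>
    rw [Finset.prod_empty, one_mul]
    refine tsum_congr fun I => ?_
    unfold T
    simp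
  | insert w S hw ih =>
    rw [step hm hf hs S w hw, ih, Finset.prod_insert hw, mul_assoc]

lemma lim (h1 : f ⊤ = 1) (hf : ∀ I, ‖f I‖ ≤ 1) (hs : 1 < s) :
    Tendsto (fun S : Finset (Pr K) => ∑' I, T f s S I) atTop (𝓝 1) := by
  classical
  have h2 : ∑' I : NZ K, (if I = ⟨⊤, top_ne_bot⟩ then (1 : ℂ) else 0) = 1 := by
    rw [tsum_ite_eq]
  rw [← h2]
  refine tendsto_tsum_of_dominated_convergence (bound := fun I : NZ K =>
    (Ideal.absNorm I.1 : ℝ) ^ (-s)) (summable_norm (K := K) hs) ?_ ?_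
  · intro I
    by_cases hI : I = ⟨⊤, top_ne_bot⟩
    · rw [if_pos hI]
      refine tendsto_const_nhds.congr fun S => ?_
      unfold T
      have h3 : ∀ v ∈ S, ¬ v.asIdeal ∣ I.1 := by
        intro v _ h4
        rw [hI] at h4
        have := Ideal.le_of_dvd h4
        exact v.isPrime.ne_top (top_le_iff.1 this)
      rw [if_pos h3, hI]
      exact (G_top h1).symm
    · rw [if_neg hI]
      have hI1 : I.1 ≠ ⊤ := fun h => hI (Subtype.ext h)
      obtain ⟨M, hM, hIM⟩ := Ideal.exists_le_maximal I.1 hI1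
      have hM0 : M ≠ ⊥ := by
        rintro rfl
        exact I.2 (le_bot_iff.1 hIM)
      let w : Pr K := ⟨M, hM.isPrime, hM0⟩
      refine tendsto_const_nhds.congr' ?_
      filter_upwards [eventually_ge_atTop ({w} : Finset (Pr K))] with S hS
      have hwS : w ∈ S := hS (Finset.mem_singleton_self w)
      unfold T
      rw [if_neg]
      intro h3
      exact h3 w hwS (Ideal.dvd_iff_le.2 hIM)
  · exact Eventually.of_forall fun S I => T_norm hf S I

end

theorem result : Pool.Agent.TH716.TW.S_euler := by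
  intro K _ _
  have hQ : Summable (fun v : Pr K => (Ideal.absNorm v.asIdeal : ℝ) ^ (-(2 : ℝ))) :=
    summable_prime (by norm_num)
  set Q : ℝ := ∑' v : Pr K, (Ideal.absNorm v.asIdeal : ℝ) ^ (-(2 : ℝ)) with hQd
  refine ⟨Real.exp (-(Q / 2)), Real.exp_pos _, ?_⟩
  intro f hm h1 hf s hs hs2
  have hA : Summable (fun v : Pr K => (f v.asIdeal).re * (Ideal.absNorm v.asIdeal : ℝ) ^ (-s)) := by
    refine Summable.of_norm_bounded (summable_prime (K := K) hs) fun v => ?_
    have h0 : (0 : ℝ) ≤ (Ideal.absNorm v.asIdeal : ℝ) ^ (-s) :=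
      Real.rpow_nonneg (Nat.cast_nonneg _) _
    rw [norm_mul, Real.norm_of_nonneg h0]
    refine mul_le_of_le_one_left h0 ?_
    exact (Complex.abs_re_le_norm _).trans (hf _)
  set A : ℝ := ∑' v : Pr K, (f v.asIdeal).re * (Ideal.absNorm v.asIdeal : ℝ) ^ (-s) with hAd
  have hlim := (lim (K := K) (f := f) (s := s) h1 hf hs).norm
  rw [norm_one] at hlim
  have hexp : Tendsto (fun S : Finset (Pr K) =>
      Real.exp (-(∑ v ∈ S, (f v.asIdeal).re * (Ideal.absNorm v.asIdeal : ℝ) ^ (-s)) + Q / 2) *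
        ‖∑' I : NZ K, G f s I.1‖) atTop
      (𝓝 (Real.exp (-A + Q / 2) * ‖∑' I : NZ K, G f s I.1‖)) := by
    have h2 : Tendsto (fun S : Finset (Pr K) =>
        ∑ v ∈ S, (f v.asIdeal).re * (Ideal.absNorm v.asIdeal : ℝ) ^ (-s)) atTop (𝓝 A) := hA.hasSum
    exact ((Real.continuous_exp.tendsto _).comp ((h2.neg).add_const (Q / 2))).mul_const _
  have hle : (1 : ℝ) ≤ Real.exp (-A + Q / 2) * ‖∑' I : NZ K, G f s I.1‖ := by
    refine le_of_tendsto_of_tendsto' hlim hexp fun S => ?_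
    rw [prod_eq hm hf hs S, norm_mul, norm_prod]
    refine mul_le_mul_of_nonneg_right ?_ (norm_nonneg _)
    have h3 : ∏ v ∈ S, ‖1 - G f s v.asIdeal‖ ≤
        ∏ v ∈ S, Real.exp (-(G f s v.asIdeal).re + ‖G f s v.asIdeal‖ ^ 2 / 2) :=
      Finset.prod_le_prod (fun _ _ => norm_nonneg _) fun v _ => norm_one_sub_le _
    refine h3.trans ?_
    rw [← Real.exp_sum]
    refine Real.exp_le_exp.2 ?_
    rw [Finset.sum_add_distrib, Finset.sum_neg_distrib]
    have h4 : ∑ v ∈ S, (G f s v.asIdeal).re =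
        ∑ v ∈ S, (f v.asIdeal).re * (Ideal.absNorm v.asIdeal : ℝ) ^ (-s) := by
      refine Finset.sum_congr rfl fun v _ => ?_
      unfold G
      rw [Complex.re_mul_ofReal]
    have h5 : ∑ v ∈ S, ‖G f s v.asIdeal‖ ^ 2 / 2 ≤ Q / 2 := by
      rw [← Finset.sum_div]
      refine div_le_div_of_nonneg_right ?_ (by norm_num)
      refine le_trans (Finset.sum_le_sum fun v _ => ?_)
        (hQ.sum_le_tsum S fun v _ => Real.rpow_nonneg (Nat.cast_nonneg _) _)
      have h6 := G_norm (s := s) hf v.asIdeal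
      have h7 : (1 : ℝ) ≤ (Ideal.absNorm v.asIdeal : ℝ) := by
        have : Ideal.absNorm v.asIdeal ≠ 0 := by
          rw [Ne, Ideal.absNorm_eq_zero_iff]
          exact v.ne_bot
        exact_mod_cast Nat.one_le_iff_ne_zero.2 this
      have h8 : (Ideal.absNorm v.asIdeal : ℝ) ^ (-s) ≤ (Ideal.absNorm v.asIdeal : ℝ) ^ (-(1 : ℝ)) :=
        Real.rpow_le_rpow_of_exponent_le h7 (by linarith)
      calc ‖G f s v.asIdeal‖ ^ 2 ≤ ((Ideal.absNorm v.asIdeal : ℝ) ^ (-(1 : ℝ))) ^ 2 :=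
            pow_le_pow_left₀ (norm_nonneg _) (h6.trans h8) 2
        _ = (Ideal.absNorm v.asIdeal : ℝ) ^ (-(2 : ℝ)) := by
            rw [← Real.rpow_natCast, ← Real.rpow_mul (Nat.cast_nonneg _)]
            norm_num
    rw [h4]
    linarith
  have hfin : Real.exp (-(Q / 2)) * Real.exp A ≤ ‖∑' I : NZ K, G f s I.1‖ := by
    have h9 : Real.exp (-(Q / 2)) * Real.exp A = Real.exp (-(-A + Q / 2)) := by
      rw [← Real.exp_add]
      congr 1
      ring
    rw [h9]
    have h10 : Real.exp (-(-A + Q / 2)) * (Real.exp (-A + Q / 2) * ‖∑' I : NZ K, G f s I.1‖) =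
        ‖∑' I : NZ K, G f s I.1‖ := by
      rw [← mul_assoc, ← Real.exp_add]
      simp
    rw [← h10]
    have := mul_le_mul_of_nonneg_left hle (Real.exp_pos (-(-A + Q / 2))).le
    linarith
  exact hfin

end Pool.Agent.TH898.Euler
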